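import Pool.Agent.H13.CA.Grp

/-!
# `[n]_F` is a homomorphism, and homomorphisms with zero derivative at `0` in characteristic `p` (helper86)

`coeff_coprime`: `R` of characteristic `p`, `f : F → G` a homomorphism with `coeff 1 f = 0`; then the coefficients of
`f` of index prime to `p` vanish.  In particular this holds for `f = [p]_F`, `F` commutative.
-/

open PowerSeries

namespace Pool.Agent.H86.FG

open Pool.Agent.H13.CA

variable {R : Type*} [CommRing R]

/-- a product `x ^ a y ^ b` of one-variable series in the two variables -/
theorem coeff_prod (a b : R⟦X⟧) (e : Fin 2 →₀ ℕ) :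
    MvPowerSeries.coeff e (PowerSeries.subst (MvPowerSeries.X 0 : MvPowerSeries (Fin 2) R) a *
      PowerSeries.subst (MvPowerSeries.X 1 : MvPowerSeries (Fin 2) R) b) =
      coeff (e 0) a * coeff (e 1) b := by
  rw [MvPowerSeries.coeff_mul,
    Finset.sum_eq_single (Finsupp.single 0 (e 0), Finsupp.single 1 (e 1)) ?_ ?_]
  · simp [coeff_subst_single]
  · intro x hx hx'
    rw [coeff_subst_single, coeff_subst_single]
    by_cases h0 : x.1 = Finsupp.single 0 (x.1 0)
    · by_cases h1 : x.2 = Finsupp.single 1 (x.2 1)
      · exfalso
        apply hx'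
        have hsum : x.1 + x.2 = e := Finset.HasAntidiagonal.mem_antidiagonal.mp hx
        have e0 : e 0 = x.1 0 := by
          rw [← hsum, h1]
          simp
        have e1 : e 1 = x.2 1 := by
          rw [← hsum, h0]
          simp
        rw [e0, e1]
        exact Prod.ext h0 h1
      · rw [if_neg h1, mul_zero]
    · rw [if_neg h0, zero_mul]
  · intro he
    exfalso
    apply he
    rw [Finset.HasAntidiagonal.mem_antidiagonal]
    ext i
    fin_cases i <;> simp

/-- the value of a two-variable series at `(a(x), b(y))`, `b` without constant and linear term, has no term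
`x ^ n y` -/
theorem coeff_pair_zero (G : MvPowerSeries (Fin 2) R) {a b : R⟦X⟧} (ha : constantCoeff a = 0)
    (hb : constantCoeff b = 0) (hb1 : coeff 1 b = 0) (n : ℕ) :
    MvPowerSeries.coeff (Finsupp.single 0 n + Finsupp.single 1 1)
      (MvPowerSeries.subst ![PowerSeries.subst (MvPowerSeries.X 0 : MvPowerSeries (Fin 2) R) a,
        PowerSeries.subst (MvPowerSeries.X 1 : MvPowerSeries (Fin 2) R) b] G) = 0 := by
  have h0 : PowerSeries.HasSubst (MvPowerSeries.X 0 : MvPowerSeries (Fin 2) R) := HasSubst.X 0
  have h1 : PowerSeries.HasSubst (MvPowerSeries.X 1 : MvPowerSeries (Fin 2) R) := HasSubst.X 1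
  have hs : MvPowerSeries.HasSubst ![PowerSeries.subst (MvPowerSeries.X 0 : MvPowerSeries (Fin 2) R) a,
        PowerSeries.subst (MvPowerSeries.X 1 : MvPowerSeries (Fin 2) R) b] :=
    hasSubst_pair (hs_subst h0 ha) (hs_subst h1 hb)
  rw [MvPowerSeries.coeff_subst hs]
  apply finsum_eq_zero_of_forall_eq_zero
  intro d
  have hd : (d.prod fun s e => (![PowerSeries.subst (MvPowerSeries.X 0 : MvPowerSeries (Fin 2) R) a,
        PowerSeries.subst (MvPowerSeries.X 1 : MvPowerSeries (Fin 2) R) b] s) ^ e) =
      PowerSeries.subst (MvPowerSeries.X 0 : MvPowerSeries (Fin 2) R) (a ^ d 0) *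
        PowerSeries.subst (MvPowerSeries.X 1 : MvPowerSeries (Fin 2) R) (b ^ d 1) := by
    rw [Finsupp.prod_fintype _ _ (fun i => pow_zero _), Fin.prod_univ_two, PowerSeries.subst_pow h0,
      PowerSeries.subst_pow h1]
    rfl
  rw [hd, coeff_prod]
  have h2 : coeff ((Finsupp.single 0 n + Finsupp.single 1 1 : Fin 2 →₀ ℕ) 1) (b ^ d 1) = 0 := by
    have h3 : (Finsupp.single 0 n + Finsupp.single 1 1 : Fin 2 →₀ ℕ) 1 = 1 := by simp
    rw [h3]
    rcases Nat.eq_zero_or_pos (d 1) with h4 | h4
    · rw [h4, pow_zero, coeff_one, if_neg one_ne_zero]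
    · obtain ⟨m, hm⟩ : ∃ m, d 1 = m + 1 := ⟨d 1 - 1, by omega⟩
      have h5 : X ^ 2 ∣ b := by
        rw [X_pow_dvd_iff]
        intro i hi
        interval_cases i
        · rw [coeff_zero_eq_constantCoeff_apply, hb]
        · exact hb1
      have h6 : X ^ 2 ∣ b ^ d 1 := by
        rw [hm, pow_succ]
        exact Dvd.dvd.mul_left h5 _
      exact (X_pow_dvd_iff.mp h6) 1 (by norm_num)
  rw [h2, mul_zero, smul_zero]

/-- low order part of the powers of a formal group law -/
theorem coeff_pow_F (F : FormalGroup R) (i : ℕ) :
    (∀ d : Fin 2 →₀ ℕ, d.degree < i → MvPowerSeries.coeff d (F.toPowerSeries ^ i) = 0) ∧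
      MvPowerSeries.coeff (Finsupp.single 0 i) (F.toPowerSeries ^ i) = 1 ∧
      (1 ≤ i → MvPowerSeries.coeff (Finsupp.single 0 (i - 1) + Finsupp.single 1 1)
        (F.toPowerSeries ^ i) = i) := by
  have hF1 : ∀ d : Fin 2 →₀ ℕ, d.degree < 1 → MvPowerSeries.coeff d F.toPowerSeries = 0 := by
    intro d hd
    have h0 : d = 0 := (Finsupp.degree_eq_zero_iff d).1 (by omega)
    rw [h0]
    exact F.zero_constantCoeff
  induction i with
  | zero =>
    refine ⟨fun d hd => absurd hd (Nat.not_lt_zero _), ?_, fun h => absurd h (by norm_num)⟩
    rw [pow_zero, Finsupp.single_zero]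
    exact MvPowerSeries.coeff_zero_one
  | succ i ih =>
    obtain ⟨hA, hB, hC⟩ := ih
    have hdeg : ∀ {x y d : Fin 2 →₀ ℕ}, x + y = d → x.degree + y.degree = d.degree := by
      intro x y d h
      rw [← map_add, h]
    have hzero : ∀ {x y d : Fin 2 →₀ ℕ}, x + y = d → (x.degree < i ∨ y.degree < 1) →
        MvPowerSeries.coeff x (F.toPowerSeries ^ i) * MvPowerSeries.coeff y F.toPowerSeries = 0 := by
      rintro x y d _ (h | h)
      · rw [hA x h, zero_mul]
      · rw [hF1 y h, mul_zero]
    refine ⟨fun d hd => ?_, ?_, fun _ => ?_⟩
    · rw [pow_succ, MvPowerSeries.coeff_mul]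
      refine Finset.sum_eq_zero fun x hx => ?_
      have hx' := Finset.HasAntidiagonal.mem_antidiagonal.mp hx
      have h1 := hdeg hx'
      exact hzero hx' (by omega)
    · rw [pow_succ, MvPowerSeries.coeff_mul,
        Finset.sum_eq_single (Finsupp.single 0 i, Finsupp.single 0 1)]
      · rw [hB, F.lin_coeff_X, one_mul]
      · intro x hx hne
        have hx' := Finset.HasAntidiagonal.mem_antidiagonal.mp hx
        by_contra hcon
        apply hne
        have h1 := hdeg hx'
        have h2 : ¬ (x.1.degree < i ∨ x.2.degree < 1) := fun h => hcon (hzero hx' h)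
        have e0 := DFunLike.congr_fun hx' 0
        have e1 := DFunLike.congr_fun hx' 1
        simp only [Finsupp.add_apply, Finsupp.single_eq_same] at e0
        simp at e1
        simp only [Finsupp.degree_eq_sum, Fin.sum_univ_two] at h1 h2
        simp at h1
        refine Prod.ext ?_ ?_
        · ext a
          fin_cases a
          · simp
            omega
          · simp
            omega
        · ext a
          fin_cases a
          · simp
            omega
          · simp
            omega
      · intro h
        exfalso
        apply h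
        rw [Finset.HasAntidiagonal.mem_antidiagonal, ← Finsupp.single_add]
    · rw [pow_succ, MvPowerSeries.coeff_mul, Nat.add_sub_cancel]
      rcases Nat.eq_zero_or_pos i with rfl | hi
      · rw [Finset.sum_eq_single (0, Finsupp.single 1 1)]
        · rw [pow_zero, MvPowerSeries.coeff_zero_one, F.lin_coeff_Y]
          simp
        · intro x hx hne
          rw [pow_zero, MvPowerSeries.coeff_one, if_neg, zero_mul]
          intro h0
          apply hne
          have hx' := Finset.HasAntidiagonal.mem_antidiagonal.mp hx
          refine Prod.ext h0 ?_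
          rw [h0, Finsupp.single_zero, zero_add, zero_add] at hx'
          exact hx'
        · intro h
          exfalso
          apply h
          rw [Finset.HasAntidiagonal.mem_antidiagonal, Finsupp.single_zero]
      · rw [Finset.sum_eq_add (Finsupp.single 0 i, Finsupp.single 1 1)
          (Finsupp.single 0 (i - 1) + Finsupp.single 1 1, Finsupp.single 0 1)]
        · rw [hB, F.lin_coeff_Y, hC hi, F.lin_coeff_X]
          push_cast
          ring
        · intro h
          have h1 := congrArg (fun x => x.2 0) h
          simp at h1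
        · intro x hx hne
          have hx' := Finset.HasAntidiagonal.mem_antidiagonal.mp hx
          by_contra hcon
          have h1 := hdeg hx'
          have h2 : ¬ (x.1.degree < i ∨ x.2.degree < 1) := fun h => hcon (hzero hx' h)
          have e0 := DFunLike.congr_fun hx' 0
          have e1 := DFunLike.congr_fun hx' 1
          simp at e0 e1
          simp only [Finsupp.degree_eq_sum, Fin.sum_univ_two] at h1 h2
          simp at h1
          rcases Nat.eq_zero_or_pos (x.2 0) with h3 | h3
          · apply hne.1
            refine Prod.ext ?_ ?_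
            · ext a
              fin_cases a
              · simp
                omega
              · simp
                omega
            · ext a
              fin_cases a
              · simp
                omega
              · simp
                omega
          · apply hne.2
            refine Prod.ext ?_ ?_
            · ext a
              fin_cases a
              · simp
                omega
              · simp
                omega
            · ext a
              fin_cases a
              · simp
                omega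
              · simp
                omega
        · intro h
          exfalso
          apply h
          rw [Finset.HasAntidiagonal.mem_antidiagonal]
        · intro h
          exfalso
          apply h
          rw [Finset.HasAntidiagonal.mem_antidiagonal]
          ext a
          fin_cases a
          · simp
            omega
          · simp

/-- **Coefficients of index prime to `p` vanish.** -/
theorem coeff_coprime {p : ℕ} [Fact p.Prime] [CharP R p] {F G : FormalGroup R} {f : R⟦X⟧}
    (h : IsHom F G f) (h1 : coeff 1 f = 0) : ∀ i, ¬ p ∣ i → coeff i f = 0 := by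
  have hpp : p.Prime := Fact.out
  intro i
  induction i using Nat.strong_induction_on with
  | _ i ih =>
    intro hi
    have hi1 : 1 ≤ i := by
      rcases Nat.eq_zero_or_pos i with rfl | h
      · exact absurd (dvd_zero p) hi
      · exact h
    have e := congrArg (MvPowerSeries.coeff (Finsupp.single 0 (i - 1) + Finsupp.single 1 1)) h.2
    rw [coeff_pair_zero G.toPowerSeries h.1 h.1 h1, PowerSeries.coeff_subst (hs_F F),
      finsum_eq_single _ i] at e
    · rw [(coeff_pow_F F i).2.2 hi1, smul_eq_mul] at e
      have hu : IsUnit (i : R) := by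
        have h2 : Nat.Coprime i p := (Nat.Prime.coprime_iff_not_dvd hpp).mpr hi |>.symm
        have h3 : IsUnit ((i : ZMod p)) := (ZMod.isUnit_iff_coprime i p).mpr h2
        have h4 := h3.map (ZMod.castHom (dvd_refl p) R)
        simpa using h4
      exact (hu.mul_left_eq_zero).mp e
    · intro j hj
      rcases lt_or_gt_of_ne hj with h2 | h2
      · by_cases hpj : p ∣ j
        · obtain ⟨c, rfl⟩ := hpj
          have h3 : MvPowerSeries.coeff (Finsupp.single 0 (i - 1) + Finsupp.single 1 1)
              (F.toPowerSeries ^ (p * c)) = 0 := by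
            have h4 := MvPowerSeries.coeff_pderiv (i := (1 : Fin 2)) (F.toPowerSeries ^ (p * c))
              (Finsupp.single 0 (i - 1))
            have hp0 : ((p * c : ℕ) : MvPowerSeries (Fin 2) R) = 0 := by
              have h5 : ((p * c : ℕ) : R) = 0 := by
                rw [Nat.cast_mul, CharP.cast_eq_zero R p, zero_mul]
              rw [← map_natCast (MvPowerSeries.C (σ := Fin 2) (R := R)), h5, map_zero]
            have hz : MvPowerSeries.pderiv R (1 : Fin 2) (F.toPowerSeries ^ (p * c)) = 0 := by
              rw [MvPowerSeries.pderiv_pow, hp0, zero_mul, zero_mul]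
            rw [hz, map_zero] at h4
            have h6 : (Finsupp.single 0 (i - 1) : Fin 2 →₀ ℕ) 1 = 0 := by simp
            rw [h6, Nat.cast_zero, zero_add, mul_one] at h4
            exact h4.symm
          rw [h3, smul_zero]
        · rw [ih j h2 hpj, zero_smul]
      · have h3 := (coeff_pow_F F j).1 (Finsupp.single 0 (i - 1) + Finsupp.single 1 1) (by
          rw [map_add, Finsupp.degree_single, Finsupp.degree_single]
          omega)
        rw [h3, smul_zero]

/-- the value of a formal group law at two one-variable series, up to order one -/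
theorem coeff_one_add (F : FormalGroup R) {a b : R⟦X⟧} (ha : constantCoeff a = 0)
    (hb : constantCoeff b = 0) :
    coeff 1 (MvPowerSeries.subst ![a, b] F.toPowerSeries : R⟦X⟧) = coeff 1 a + coeff 1 b := by
  have hs : MvPowerSeries.HasSubst ![(a : MvPowerSeries Unit R), b] :=
    hasSubst_pair (hs_zero ha) (hs_zero hb)
  have h1 : ∀ d : Fin 2 →₀ ℕ, 2 ≤ d.degree →
      coeff 1 (a ^ d 0 * b ^ d 1) = 0 := by
    intro d hd
    have h2 : X ∣ a := X_dvd_iff.mpr ha
    have h3 : X ∣ b := X_dvd_iff.mpr hb
    have h4 : X ^ (d 0 + d 1) ∣ a ^ d 0 * b ^ d 1 := by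
      rw [pow_add]
      exact mul_dvd_mul (pow_dvd_pow_of_dvd h2 _) (pow_dvd_pow_of_dvd h3 _)
    rw [Finsupp.degree_eq_sum, Fin.sum_univ_two] at hd
    exact (X_pow_dvd_iff.mp h4) 1 (by omega)
  have key : ∀ d : Fin 2 →₀ ℕ, MvPowerSeries.coeff (Finsupp.single () 1)
      (d.prod fun s e => (![(a : MvPowerSeries Unit R), b] s) ^ e) = coeff 1 (a ^ d 0 * b ^ d 1) := by
    intro d
    rw [Finsupp.prod_fintype _ _ (fun i => pow_zero _), Fin.prod_univ_two]
    rfl
  have h5 : coeff 1 (MvPowerSeries.subst ![a, b] F.toPowerSeries : R⟦X⟧) =
      ∑ᶠ d : Fin 2 →₀ ℕ, MvPowerSeries.coeff d F.toPowerSeries • coeff 1 (a ^ d 0 * b ^ d 1) := by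
    rw [PowerSeries.coeff, MvPowerSeries.coeff_subst hs]
    exact finsum_congr fun d => congrArg (fun z => MvPowerSeries.coeff d F.toPowerSeries • z) (key d)
  rw [h5, finsum_eq_sum_of_support_subset (s := {Finsupp.single 0 1, Finsupp.single 1 1}),
    Finset.sum_pair]
  · rw [F.lin_coeff_X, F.lin_coeff_Y]
    simp
  · intro h
    have h6 := DFunLike.congr_fun h 0
    simp at h6
  · intro d hd
    rw [Function.mem_support] at hd
    have h6 : ¬ 2 ≤ d.degree := fun h => hd (by rw [h1 d h, smul_zero])
    have h7 : d ≠ 0 := by
      rintro rfl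
      apply hd
      have h8 : MvPowerSeries.coeff (0 : Fin 2 →₀ ℕ) F.toPowerSeries = 0 := F.zero_constantCoeff
      rw [h8, zero_smul]
    have h8 : d.degree ≠ 0 := fun h => h7 ((Finsupp.degree_eq_zero_iff d).1 h)
    have h9 : d 0 + d 1 = 1 := by
      have h10 : d.degree = d 0 + d 1 := by
        rw [Finsupp.degree_eq_sum, Fin.sum_univ_two]
      omega
    rw [Finset.coe_insert, Finset.coe_singleton, Set.mem_insert_iff, Set.mem_singleton_iff]
    rcases Nat.eq_zero_or_pos (d 0) with h10 | h10
    · right
      ext i
      fin_cases i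
      · simpa using h10
      · simp
        omega
    · left
      ext i
      fin_cases i
      · simp
        omega
      · simp
        omega

theorem coeff_one_mulSer (F : FormalGroup R) (n : ℕ) : coeff 1 (mulSer F n) = n := by
  induction n with
  | zero =>
    rw [mulSer, map_zero, Nat.cast_zero]
  | succ n ih =>
    rw [mulSer, coeff_one_add F (cc_mulSer F n) constantCoeff_X, ih, coeff_one_X, Nat.cast_succ]

/-- `[n]_F (x) = n • x` in the monoid of points -/
theorem mulSer_point {F : FormalGroup R} {σ : Type*} (n : ℕ) (x : F.Point σ) :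
    PowerSeries.subst x.val (mulSer F n) = (n • x).val := by
  induction n with
  | zero =>
    rw [zero_nsmul, mulSer, FormalGroup.zero_apply, ← PowerSeries.coe_substAlgHom x.prop, map_zero]
  | succ n ih =>
    rw [succ_nsmul, FormalGroup.add_apply, ← ih, mulSer,
      subst_pair (hs_zero (cc_mulSer F n)) HasSubst.X' x.prop, PowerSeries.subst_X x.prop]

/-- `[n]_F` is an endomorphism of a commutative formal group law -/
theorem mulSer_isHom {F : FormalGroup R} (hF : F.IsComm) (n : ℕ) : IsHom F F (mulSer F n) := by
  refine ⟨cc_mulSer F n, ?_⟩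
  let x : F.Point (Fin 2) := ⟨MvPowerSeries.X 0, HasSubst.X 0⟩
  let y : F.Point (Fin 2) := ⟨MvPowerSeries.X 1, HasSubst.X 1⟩
  have h1 : (x + y).val = F.toPowerSeries := by
    rw [FormalGroup.add_apply]
    show MvPowerSeries.subst ![MvPowerSeries.X 0, MvPowerSeries.X 1] F.toPowerSeries = _
    rw [pair_X, MvPowerSeries.subst_self]
    rfl
  have h2 := mulSer_point n (x + y)
  rw [h1, nsmul_add, FormalGroup.add_apply, ← mulSer_point, ← mulSer_point] at h2
  exact h2

/-- in characteristic `p` the coefficients of `[p]_F` of index prime to `p` vanish -/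
theorem coeff_mulSer_coprime {p : ℕ} [Fact p.Prime] [CharP R p] {F : FormalGroup R} (hF : F.IsComm)
    {i : ℕ} (hi : ¬ p ∣ i) : coeff i (mulSer F p) = 0 :=
  coeff_coprime (mulSer_isHom hF p) (by rw [coeff_one_mulSer, CharP.cast_eq_zero]) i hi

end Pool.Agent.H86.FG
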