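import Pool.Agent.H13.CA.Grp
import Pool.Agent.H86.FG.Mul
import Pool.Agent.H86.NF.Un2
import Pool.Agent.H84.CA.Ac

/-!
# Normal forms of deformations of formal group laws (helper86)

`Nrm p h Γ G` (`G` over `L⟦u_1, .., u_s⟧`, `Γ` over `k ⊆ L`): the coefficients of `[p]_G` of index `p ^ h * i`, `i ≥ 1`,
are those of `[p]_Γ`.  `nf_exists`: every deformation of `Γ` (of height `h`) is isomorphic, by an isomorphism
`≡ X`, to a normal one; `nf_unique`: this normal deformation is unique, and so is the isomorphism.  `hom_unique`: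
homomorphisms are determined by their reductions.  `lift_unique`: elements of `Lift k F` are determined by their
reductions, `F` a Lubin-Tate family.
-/

open PowerSeries

namespace Pool.Agent.H86.FG

open Pool.Agent.H13.CA
open Pool.Agent.H86.NF (Sm HT Ij cf cm)

section basic

variable {L : Type*} [Field L] {σ : Type*}

/-- the maximal ideal of a power series ring -/
noncomputable abbrev mI (σ L : Type*) [Field L] : Ideal (MvPowerSeries σ L) :=
  RingHom.ker (MvPowerSeries.constantCoeff (σ := σ) (R := L))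

theorem ac_mI [Finite σ] : IsAdicComplete (mI σ L) (MvPowerSeries σ L) := H84.CA.ac_ker

theorem charP_mv (p : ℕ) [CharP L p] : CharP (MvPowerSeries σ L) p :=
  charP_of_injective_ringHom (f := MvPowerSeries.C (σ := σ) (R := L)) MvPowerSeries.C_injective p

theorem sm_iff {f g : (MvPowerSeries σ L)⟦X⟧} : Sm (mI σ L) f g ↔ red f = red g := by
  rw [PowerSeries.ext_iff]
  refine forall_congr' fun i => ?_
  rw [RingHom.mem_ker, map_sub, sub_eq_zero, red, red, coeff_map, coeff_map]

theorem red_mulSer (G : FormalGroup (MvPowerSeries σ L)) (n : ℕ) :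
    red (mulSer G n) = mulSer (special G) n := (mulSer_map _ _ _).symm

theorem cc_coeff (G : FormalGroup (MvPowerSeries σ L)) (n i : ℕ) :
    MvPowerSeries.constantCoeff (coeff i (mulSer G n)) = coeff i (mulSer (special G) n) := by
  rw [← red_mulSer, red, coeff_map]

theorem unit_of_red {f : (MvPowerSeries σ L)⟦X⟧} (h : IsUnit (coeff 1 (red f))) :
    IsUnit (coeff 1 f) := by
  rw [red, coeff_map] at h
  exact MvPowerSeries.isUnit_iff_constantCoeff.mpr h

theorem hom_height {p h : ℕ} {G : FormalGroup (MvPowerSeries σ L)} (hs : HasHeight p h (special G)) :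
    (∀ i < p ^ h, coeff i (mulSer G p) ∈ mI σ L) ∧ IsUnit (coeff (p ^ h) (mulSer G p)) := by
  constructor
  · intro i hi
    rw [RingHom.mem_ker, cc_coeff, hs.1 i hi]
  · rw [MvPowerSeries.isUnit_iff_constantCoeff, cc_coeff]
    exact hs.2

/-- **UN**: homomorphisms of deformations are determined by their reductions. -/
theorem hom_unique {p h : ℕ} [Fact p.Prime] [CharP L p] [Finite σ]
    {G H : FormalGroup (MvPowerSeries σ L)} (hH : H.IsComm) (hs : HasHeight p h (special G))
    {B B' : (MvPowerSeries σ L)⟦X⟧} (hB : IsHom G H B) (hB' : IsHom G H B')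
    (hr : red B = red B') : B = B' := by
  have := charP_mv (σ := σ) (L := L) p
  have := ac_mI (σ := σ) (L := L)
  obtain ⟨h1, h2⟩ := hom_height hs
  exact NF.un2 (p := p) (I := mI σ L) (Nat.one_le_pow _ _ (Nat.Prime.pos Fact.out)) (cc_mulSer G p)
    (fun i hi => coeff_mulSer_coprime hH hi) h1 h2 hB.1 hB'.1 (sm_iff.mpr hr) (hB.mulSer p)
    (hB'.mulSer p)

/-- the same with a commutative source and target of given height -/
theorem hom_unique_of_source {p h : ℕ} [Fact p.Prime] [CharP L p] [Finite σ]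
    {G H : FormalGroup (MvPowerSeries σ L)} (hG : G.IsComm) (hs : HasHeight p h (special G))
    {B B' : (MvPowerSeries σ L)⟦X⟧} (hB : IsHom G H B) (hB' : IsHom G H B')
    (hu : IsUnit (coeff 1 B)) (hr : red B = red B') : B = B' := by
  obtain ⟨H', hH', hc⟩ := exists_conj G hB.1 hu
  have : H = H' := hB.target_unique hH' hu
  exact hom_unique (this ▸ hc hG) hs hB hB' hr

end basic

section nf

variable {k L : Type*} [Field k] [Field L] [Algebra k L] {σ : Type*}

theorem cc_algebraMap (x : k) :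
    MvPowerSeries.constantCoeff (algebraMap k (MvPowerSeries σ L) x) = algebraMap k L x := by
  rw [MvPowerSeries.algebraMap_apply, MvPowerSeries.constantCoeff_C]

/-- normal form relative to the special fibre `Γ` over `k` -/
def Nrm (p h : ℕ) (Γ : FormalGroup k) (G : FormalGroup (MvPowerSeries σ L)) : Prop :=
  NF.NrmR (p ^ h) (PowerSeries.map (algebraMap k (MvPowerSeries σ L)) (mulSer Γ p)) (mulSer G p)

theorem nrm_iff {p h : ℕ} {Γ : FormalGroup k} {G : FormalGroup (MvPowerSeries σ L)} :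
    Nrm p h Γ G ↔ ∀ i, 1 ≤ i → coeff (p ^ h * i) (mulSer G p) =
      algebraMap k (MvPowerSeries σ L) (coeff (p ^ h * i) (mulSer Γ p)) := by
  refine forall₂_congr fun i _ => ?_
  rw [coeff_map]

/-- for `[p]_Γ = x ^ (p ^ h)` -/
theorem nrm_iff' {p h : ℕ} [Fact p.Prime] {Γ : FormalGroup k} (hΓ : mulSer Γ p = X ^ p ^ h)
    {G : FormalGroup (MvPowerSeries σ L)} :
    Nrm p h Γ G ↔ ∀ i, 1 ≤ i → coeff (p ^ h * i) (mulSer G p) = if i = 1 then 1 else 0 := by
  rw [nrm_iff]
  refine forall₂_congr fun i _ => ?_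
  have hq : 0 < p ^ h := Nat.pow_pos (Nat.Prime.pos Fact.out)
  rw [hΓ, coeff_X_pow]
  by_cases hi : i = 1
  · rw [hi, mul_one, if_pos rfl, if_pos rfl, map_one]
  · rw [if_neg, if_neg hi, map_zero]
    intro h
    exact hi (Nat.eq_of_mul_eq_mul_left hq (by rw [h, mul_one]))

theorem hasHeight_of_eq {p h : ℕ} {Γ : FormalGroup k} (hΓ : mulSer Γ p = X ^ p ^ h) :
    HasHeight p h Γ := by
  rw [HasHeight, hΓ]
  refine ⟨fun i hi => ?_, ?_⟩
  · rw [coeff_X_pow, if_neg hi.ne]
  · rw [coeff_X_pow, if_pos rfl]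
    exact isUnit_one

theorem height_map {p h : ℕ} {Γ : FormalGroup k} (hΓ : HasHeight p h Γ) :
    HasHeight p h (Γ.map (algebraMap k L)) := by
  rw [HasHeight, mulSer_map]
  refine ⟨fun i hi => ?_, ?_⟩
  · rw [coeff_map, hΓ.1 i hi, map_zero]
  · rw [coeff_map]
    exact hΓ.2.map _

private theorem ref_red (f : k⟦X⟧) :
    red (PowerSeries.map (algebraMap k (MvPowerSeries σ L)) f) = PowerSeries.map (algebraMap k L) f := by
  rw [red, map_map']
  rfl

private theorem ref_sm {p : ℕ} {Γ : FormalGroup k} {G : FormalGroup (MvPowerSeries σ L)}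
    (hs : special G = Γ.map (algebraMap k L)) :
    Sm (mI σ L) (mulSer G p) (PowerSeries.map (algebraMap k (MvPowerSeries σ L)) (mulSer Γ p)) := by
  rw [sm_iff, red_mulSer, hs, mulSer_map, ref_red]

theorem special_eq {G G' : FormalGroup (MvPowerSeries σ L)} {B : (MvPowerSeries σ L)⟦X⟧}
    (hB : IsHom G G' B) (hr : red B = X) : special G' = special G := by
  have h1 := hB.map (MvPowerSeries.constantCoeff (σ := σ) (R := L))
  have h2 : PowerSeries.map (MvPowerSeries.constantCoeff (σ := σ) (R := L)) B = X := hr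
  rw [h2] at h1
  exact h1.target_unique (IsHom.refl (special G)) (by rw [coeff_one_X]; exact isUnit_one)

variable {p : ℕ} [Fact p.Prime] [CharP k p] [Finite σ]

theorem nf_exists {h : ℕ} {Γ : FormalGroup k} (hΓ : Γ.IsComm) (hΓ' : HasHeight p h Γ)
    {G : FormalGroup (MvPowerSeries σ L)} (hG : G.IsComm)
    (hs : special G = Γ.map (algebraMap k L)) :
    ∃ (G' : FormalGroup (MvPowerSeries σ L)) (B : (MvPowerSeries σ L)⟦X⟧),
      IsHom G G' B ∧ red B = X ∧ G'.IsComm ∧
        special G' = Γ.map (algebraMap k L) ∧ Nrm p h Γ G' := by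
  have hL : CharP L p := charP_of_injective_algebraMap (algebraMap k L).injective p
  have := charP_mv (σ := σ) (L := L) p
  have := ac_mI (σ := σ) (L := L)
  obtain ⟨u, g', hu0, huX, hg'0, -, hn, huc⟩ := NF.gnf_exists (p := p) (d := p ^ h) (mI σ L)
    (Nat.one_le_pow _ _ (Nat.Prime.pos Fact.out)) (cc_mulSer G p) (ref_sm (p := p) hs)
    (fun i hi => by
      rw [coeff_map, coeff_mulSer_coprime hΓ hi, map_zero]
      exact zero_mem _)
    (fun i hi => by
      rw [coeff_map, hΓ'.1 i hi, map_zero]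
      exact zero_mem _)
    (by
      rw [coeff_map]
      exact hΓ'.2.map _)
  have hu1 := NF.isUnit_one_of_sm huX
  obtain ⟨G', hG', hc⟩ := exists_conj G hu0 hu1
  have hr : red u = X := by
    rw [sm_iff] at huX
    rw [huX]
    exact red_X
  have hg' : mulSer G' p = g' := by
    obtain ⟨v, hv0, huv, hvu⟩ := NF.exists_inv hu0 hu1
    have e : cm (mulSer G' p) u = cm g' u := (hG'.mulSer p).symm.trans huc
    calc mulSer G' p = cm (mulSer G' p) (cm u v) := by rw [huv, NF.comp_X]
      _ = cm (cm (mulSer G' p) u) v := (NF.comp_assoc _ hu0 hv0).symm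
      _ = cm (cm g' u) v := by rw [e]
      _ = cm g' (cm u v) := NF.comp_assoc _ hu0 hv0
      _ = g' := by rw [huv, NF.comp_X]
  refine ⟨G', u, hG', hr, hc hG, (special_eq hG' hr).trans hs, ?_⟩
  rw [Nrm, hg']
  exact hn

/-- two isomorphisms to normal deformations with the same reduction are equal -/
theorem nf_unique' {h : ℕ} {Γ : FormalGroup k} (hΓ : Γ.IsComm) (hΓ' : HasHeight p h Γ)
    {G G₁ G₂ : FormalGroup (MvPowerSeries σ L)}
    (hs₁ : special G₁ = Γ.map (algebraMap k L)) (hs₂ : special G₂ = Γ.map (algebraMap k L))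
    (hN₁ : Nrm p h Γ G₁) (hN₂ : Nrm p h Γ G₂)
    {B₁ B₂ : (MvPowerSeries σ L)⟦X⟧} (hB₁ : IsHom G G₁ B₁) (hB₂ : IsHom G G₂ B₂)
    (hu : IsUnit (coeff 1 B₁)) (hr : red B₁ = red B₂) : G₁ = G₂ ∧ B₁ = B₂ := by
  have hL : CharP L p := charP_of_injective_algebraMap (algebraMap k L).injective p
  have := charP_mv (σ := σ) (L := L) p
  have := ac_mI (σ := σ) (L := L)
  have hH₁ : HasHeight p h (special G₁) := by
    rw [hs₁]
    exact height_map hΓ'
  obtain ⟨h1, h2⟩ := hom_height hH₁
  have h3 := NF.gnf_unique (p := p) (I := mI σ L) (d := p ^ h) (g₂ := mulSer G₂ p)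
    (Nat.one_le_pow _ _ (Nat.Prime.pos Fact.out)) (cc_mulSer G p) (cc_mulSer G₁ p)
    (fun i hi => by
      rw [RingHom.mem_ker, cc_coeff, hs₂, mulSer_map, coeff_map, coeff_mulSer_coprime hΓ hi,
        map_zero])
    h1 h2 (fun i hi => by rw [hN₁ i hi, hN₂ i hi]) hB₁.1 hB₂.1 hu (sm_iff.mpr hr) (hB₁.mulSer p)
    (hB₂.mulSer p)
  refine ⟨?_, h3.1⟩
  have h4 := h3.1
  subst h4
  exact hB₁.target_unique hB₂ hu

theorem nf_unique {h : ℕ} {Γ : FormalGroup k} (hΓ : Γ.IsComm)
    (hΓ' : HasHeight p h Γ) {G G' : FormalGroup (MvPowerSeries σ L)}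
    (hs : special G = Γ.map (algebraMap k L))
    (hs' : special G' = Γ.map (algebraMap k L)) (hN : Nrm p h Γ G) (hN' : Nrm p h Γ G')
    {B : (MvPowerSeries σ L)⟦X⟧} (hB : IsHom G G' B)
    (hr : red B = X) : G = G' ∧ B = X := by
  have h1 := nf_unique' hΓ hΓ' hs hs' hN hN' (IsHom.refl G) hB
    (by rw [coeff_one_X]; exact isUnit_one) (by rw [hr]; exact red_X)
  exact ⟨h1.1, h1.2.symm⟩

omit [CharP k p] [Finite σ] [Fact p.Prime] in
theorem nf_map {h : ℕ} {Γ : FormalGroup k} {L' : Type*} [Field L'] [Algebra k L'] {τ : Type*}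
    {G : FormalGroup (MvPowerSeries σ L)}
    (γ : MvPowerSeries σ L →ₐ[k] MvPowerSeries τ L') (hN : Nrm p h Γ G) :
    Nrm p h Γ (G.map (γ : MvPowerSeries σ L →+* MvPowerSeries τ L')) := by
  rw [nrm_iff] at *
  intro i hi
  rw [mulSer_map, coeff_map, hN i hi]
  exact γ.commutes _

omit [CharP k p] [Finite σ] [Fact p.Prime] in
theorem nf_reflect {h : ℕ} {Γ : FormalGroup k} {L' : Type*} [Field L'] [Algebra k L'] {τ : Type*}
    {G : FormalGroup (MvPowerSeries σ L)}
    (γ : MvPowerSeries σ L →ₐ[k] MvPowerSeries τ L') (hγ : Function.Injective γ)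
    (hN : Nrm p h Γ (G.map (γ : MvPowerSeries σ L →+* MvPowerSeries τ L'))) :
    Nrm p h Γ G := by
  rw [nrm_iff] at *
  intro i hi
  apply hγ
  have h1 := hN i hi
  rw [mulSer_map, coeff_map] at h1
  exact h1.trans (γ.commutes _).symm

omit [CharP k p] [Finite σ] [Fact p.Prime] in
/-- the special fibre of a twist -/
theorem special_twist {Γ : FormalGroup k} {L' : Type*} [Field L'] [Algebra k L'] {τ : Type*}
    {G : FormalGroup (MvPowerSeries σ L)} (hs : special G = Γ.map (algebraMap k L))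
    (γ : MvPowerSeries σ L →ₐ[k] MvPowerSeries τ L')
    (hγ : ∀ x, MvPowerSeries.constantCoeff x = 0 → MvPowerSeries.constantCoeff (γ x) = 0) :
    special (G.map (γ : MvPowerSeries σ L →+* MvPowerSeries τ L')) = Γ.map (algebraMap k L') := by
  refine FormalGroup.ext ?_
  ext d
  have h1 := congrArg (fun z => MvPowerSeries.coeff d z.toPowerSeries) hs
  have h2 : MvPowerSeries.constantCoeff (MvPowerSeries.coeff d G.toPowerSeries) =
      algebraMap k L (MvPowerSeries.coeff d Γ.toPowerSeries) := h1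
  have h3 : MvPowerSeries.constantCoeff (MvPowerSeries.coeff d G.toPowerSeries -
      algebraMap k (MvPowerSeries σ L) (MvPowerSeries.coeff d Γ.toPowerSeries)) = 0 := by
    rw [map_sub, h2, sub_eq_zero]
    exact (cc_algebraMap _).symm
  have h4 := hγ _ h3
  rw [map_sub, γ.commutes, map_sub, sub_eq_zero] at h4
  show MvPowerSeries.constantCoeff (γ (MvPowerSeries.coeff d G.toPowerSeries)) =
    algebraMap k L' (MvPowerSeries.coeff d Γ.toPowerSeries)
  rw [h4]
  exact cc_algebraMap _

/-- **the normal form is fixed by twists compatible with the isomorphism to it** -/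
theorem nf_fixed {h : ℕ} {Γ : FormalGroup k} (hΓ : Γ.IsComm) (hΓ' : HasHeight p h Γ)
    {G G' : FormalGroup (MvPowerSeries σ L)} (hs' : special G' = Γ.map (algebraMap k L))
    (hN : Nrm p h Γ G') {B : (MvPowerSeries σ L)⟦X⟧} (hB : IsHom G G' B) (hu : IsUnit (coeff 1 B))
    (α : MvPowerSeries σ L →ₐ[k] MvPowerSeries σ L)
    (hα : ∀ x, MvPowerSeries.constantCoeff x = 0 → MvPowerSeries.constantCoeff (α x) = 0)
    {f : (MvPowerSeries σ L)⟦X⟧}
    (hf : IsHom G (G.map (α : MvPowerSeries σ L →+* MvPowerSeries σ L)) f)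
    (hr : red (PowerSeries.subst f
      (PowerSeries.map (α : MvPowerSeries σ L →+* MvPowerSeries σ L) B)) = red B) :
    G'.map (α : MvPowerSeries σ L →+* MvPowerSeries σ L) = G' ∧
      PowerSeries.subst f
        (PowerSeries.map (α : MvPowerSeries σ L →+* MvPowerSeries σ L) B) = B := by
  have h1 : IsHom G (G'.map (α : MvPowerSeries σ L →+* MvPowerSeries σ L)) (PowerSeries.subst f
      (PowerSeries.map (α : MvPowerSeries σ L →+* MvPowerSeries σ L) B)) := hf.comp (hB.map _)
  have h2 := nf_unique' hΓ hΓ' hs' (special_twist hs' α hα) hN (nf_map α hN) hB h1 hu hr.symm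
  exact ⟨h2.1.symm, h2.2.symm⟩

end nf

section coord

variable {k : Type*} [Field k]

theorem Istd_eq_Ij {m j : ℕ} :
    Istd k m j = Ij (fun l : Fin m => (MvPowerSeries.X l : MvPowerSeries (Fin m) k)) j := by
  rw [Istd, Ij]
  congr 1
  ext x
  constructor
  · rintro ⟨i, hi, rfl⟩
    exact ⟨i, hi, rfl⟩
  · rintro ⟨i, hi, rfl⟩
    exact ⟨i, hi, rfl⟩

theorem ht_of_isLT {p m : ℕ} {F : FormalGroup (MvPowerSeries (Fin m) k)} (hF : IsLT k p m F) :
    HT p (fun l : Fin m => (MvPowerSeries.X l : MvPowerSeries (Fin m) k)) (mulSer F p) := by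
  refine ⟨fun j i hi => ?_, fun j => ⟨1, isUnit_one, ?_⟩, fun i hi => ?_, ?_⟩
  · rw [← Istd_eq_Ij]
    exact hF.low j j.2.le i hi
  · rw [← Istd_eq_Ij, one_mul]
    exact hF.mid j
  · rw [← Istd_eq_Ij]
    exact hF.low m le_rfl i hi
  · exact ⟨_, hF.top, by rw [sub_self]; exact zero_mem _⟩

theorem mI_eq {m : ℕ} : mI (Fin m) k =
    Ideal.span (Set.range fun l : Fin m => (MvPowerSeries.X l : MvPowerSeries (Fin m) k)) :=
  H84.CA.vI_eq_ker.symm

theorem height_of_isLT {p m : ℕ} {F : FormalGroup (MvPowerSeries (Fin m) k)} (hF : IsLT k p m F) :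
    HasHeight p (m + 1) (special F) := by
  constructor
  · intro i hi
    have h1 : coeff i (mulSer F p) ∈ mI (Fin m) k := by
      rw [mI_eq, ← NF.Ij_last, ← Istd_eq_Ij]
      exact hF.low m le_rfl i hi
    rw [← cc_coeff]
    exact h1
  · rw [← cc_coeff]
    exact hF.top.map _

/-- **GEN**: liftings are determined by their reductions. -/
theorem lift_unique {p : ℕ} [Fact p.Prime] [CharP k p] {m : ℕ}
    {F : FormalGroup (MvPowerSeries (Fin m) k)} (hF : IsLT k p m F)
    {a b : Lift k F} (h : red a.f = red b.f) : a = b := by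
  have := charP_mv (σ := Fin m) (L := k) p
  have := ac_mI (σ := Fin m) (L := k)
  have hsF : (special F).IsComm := IsComm.map' hF.comm _
  have key : ∀ c : Lift k F, red c.f = X → c = 1 := by
    intro c hc
    have h1 := height_of_isLT hF
    have h2 := NF.ggen (k := k) (A := MvPowerSeries (Fin m) k) (p := p) (m := mI (Fin m) k)
      (g := mulSer F p) (g₀ := mulSer (special F) p) mI_eq
      (fun x => ⟨MvPowerSeries.constantCoeff x, by
        rw [RingHom.mem_ker, map_sub, sub_eq_zero]
        exact (MvPowerSeries.constantCoeff_C (MvPowerSeries.constantCoeff x)).symm⟩)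
      (cc_mulSer F p)
      (by
        rw [sm_iff, red_mulSer, red, map_map']
        ext i
        rw [coeff_map, RingHom.comp_apply, MvPowerSeries.algebraMap_apply,
          MvPowerSeries.constantCoeff_C]
        rfl)
      (ht_of_isLT hF) (fun i hi => coeff_mulSer_coprime hsF hi) h1.1 h1.2
      (c.g : MvPowerSeries (Fin m) k →ₐ[k] MvPowerSeries (Fin m) k)
      (fun x hx => by
        rw [RingHom.mem_ker] at hx ⊢
        exact (cc_equiv c.g x).trans hx)
      c.hom.1 (by
        rw [sm_iff, hc]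
        exact red_X.symm)
      (by
        have h3 := c.hom.mulSer p
        rw [mulSer_map] at h3
        exact h3)
    refine Lift.ext' ?_ h2.2
    rw [Lift.one_g]
    ext x
    exact congrArg (MvPowerSeries.coeff _) (DFunLike.congr_fun h2.1 x)
  have h1 : red (a⁻¹ * b).f = X := by
    rw [Lift.red_mul, ← h, ← Lift.red_mul, inv_mul_cancel, Lift.red_one]
  exact (inv_mul_eq_one.mp (key _ h1))

end coord

end Pool.Agent.H86.FG
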